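import Mathlib
import Pool.Agent.H42.CM9.ThreeB

/-!
# Theorem U: the degenerate types: at least two blocks (H9 US)

Copies of the theorems of `H42/CM9/ThreeB` for the number of all degenerate types (`FailP`) instead of the number of the types which
do not satisfy `DivGen`.
-/

open NumberField Module

namespace Pool.Agent.H9.US

open Pool.Agent.H38.CM Pool.Agent.H52.MF Pool.Agent.H52.AD Pool.Agent.H52.CS Pool.Agent.H42.CM9

variable {K : Type} [Field K] [NumberField K] [IsCMField K]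

theorem bad_le_sum (g : ℕ) (hK : finrank ℚ K = 2 * g) (x₀ : K →+* ℂ) :
    ∃ 𝒲 : Finset (Submodule ℚ ((K →+* ℂ) → ℚ)), (∀ W ∈ 𝒲, Smp (cjp K) (autGrp K) W) ∧
      ∑ W ∈ 𝒲, finrank ℚ W * (finrank ℚ (Fix (autGrp K) x₀ W) / finrank ℚ (Endo (autGrp K) W)) ≤ g ∧
      (∀ 𝒱 ⊆ 𝒲, ∀ V : Submodule ℚ ((K →+* ℂ) → ℚ), (∀ W ∈ 𝒱, W ≤ V) →
        ∑ W ∈ 𝒱, finrank ℚ W ≤ finrank ℚ V) ∧
      (Nat.card (FailP (cjp K) (autGrp K) (fun _ => True)) : ℝ) ≤
        ∑ W ∈ 𝒲, (Nat.card (Fail (cjp K) (autGrp K) W) : ℝ) := by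
  classical
  have hS := sys_cm g hK
  obtain ⟨𝒲, h𝒲, hrep, hsum, hdim⟩ := exists_reps_b hS x₀
  refine ⟨𝒲, h𝒲, hsum, hdim, ?_⟩
  have hfail : (Nat.card (FailP (cjp K) (autGrp K) (fun _ => True)) : ℝ) ≤
      Nat.card (FailP (cjp K) (autGrp K) (fun _ => True)) := by
    exact le_refl _
  exact hfail.trans (fail_cover2 (c := cjp K) 𝒲 hrep)

/-- At least three blocks. -/
theorem three_case : ∃ g₀ : ℕ, ∀ (K : Type) [Field K] [NumberField K] [IsCMField K] (g : ℕ),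
    finrank ℚ K = 2 * g → g₀ ≤ g → ∀ x : K →+* ℂ, (blk x).card < g →
    (Nat.card (FailP (cjp K) (autGrp K) (fun _ => True)) : ℝ) ≤
      2 ^ g * (g : ℝ) ^ (-(1 / 50) : ℝ) := by
  obtain ⟨g₀, h₀⟩ := three_sum
  refine ⟨g₀, ?_⟩
  intro K _ _ _ g hK hg x hx
  have hS := sys_cm g hK
  obtain ⟨𝒲, h𝒲, hsum, -, hle⟩ := bad_le_sum g hK x
  obtain ⟨y, z, hxy, hxz, hyz⟩ := exists_three g hK x hx
  refine hle.trans (h₀ hS x hg 𝒲 (fun W hW => ⟨h𝒲 W hW, ?_⟩) hsum)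
  have h1 := three_blocks W (h𝒲 W hW) x y z hxy hxz hyz
  have h2 := fix_pos hS (h𝒲 W hW) x
  omega

/-- Two blocks. -/
theorem two_case : ∃ C : ℝ, ∃ g₀ : ℕ, ∀ (K : Type) [Field K] [NumberField K] [IsCMField K] (g : ℕ),
    finrank ℚ K = 2 * g → g₀ ≤ g → ∀ x : K →+* ℂ, (blk x).card ≤ g →
    (Nat.card (FailP (cjp K) (autGrp K) (fun _ => True)) : ℝ) ≤
      2 ^ g * ((g : ℝ) ^ (-(1 / 50) : ℝ) + C * (Nat.card {F : IntermediateField ℚ K //
        IsCMField F ∧ (finrank ℚ F = 4 ∨ finrank ℚ F = 6)} : ℝ) / g) := by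
  classical
  obtain ⟨g₀, h₀⟩ := three_sum
  obtain ⟨g₁, h₁⟩ := bnd_small 2 (by norm_num)
  refine ⟨1100 * (2 * Real.log (3 * 2)) * 6, max g₀ g₁, ?_⟩
  intro K _ _ _ g hK hg x hx
  have hg0 : g₀ ≤ g := (le_max_left _ _).trans hg
  have hg1 : g₁ ≤ g := (le_max_right _ _).trans hg
  have hS := sys_cm g hK
  obtain ⟨𝒲, h𝒲, hsum, hdim, hle⟩ := bad_le_sum g hK x
  obtain ⟨y, hxy⟩ := exists_two g hK hS.pos x hx
  have hgR : (0 : ℝ) < g := by exact_mod_cast hS.pos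
  have h2ν : ∀ W ∈ 𝒲, 2 * finrank ℚ (Fix (autGrp K) x W) ≤ finrank ℚ W := fun W hW =>
    two_blocks W (h𝒲 W hW) x y hxy
  have hνpos : ∀ W ∈ 𝒲, 0 < finrank ℚ (Fix (autGrp K) x W) := fun W hW => fix_pos hS (h𝒲 W hW) x
  have hnG : ∀ W ∈ 𝒲, ¬ Gal (autGrp K) W := by
    intro W hW hG
    have h1 := (fix_eq_dim hS (h𝒲 W hW) x).2 hG
    have h2 := h2ν W hW
    have h3 := hνpos W hW
    omega
  have hA := h₀ hS x hg0 (𝒲.filter (fun W : Submodule ℚ ((K →+* ℂ) → ℚ) => ¬ finrank ℚ W = 2)) (fun W hW => by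
    rw [Finset.mem_filter] at hW
    refine ⟨h𝒲 W hW.1, ?_⟩
    have h2 := h2ν W hW.1
    have h3 := hνpos W hW.1
    have h4 := hW.2
    omega) ((Finset.sum_le_sum_of_subset (Finset.filter_subset _ _)).trans hsum)
  have hB : ∑ W ∈ 𝒲.filter (fun W : Submodule ℚ ((K →+* ℂ) → ℚ) => finrank ℚ W = 2), (Nat.card (Fail (cjp K) (autGrp K) W) : ℝ) ≤
      2 ^ g * (1100 * (2 * Real.log (3 * 2)) * 6 * (Nat.card {F : IntermediateField ℚ K //
        IsCMField F ∧ (finrank ℚ F = 4 ∨ finrank ℚ F = 6)} : ℝ) / g) := by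
    have h1 : ∀ W ∈ 𝒲.filter (fun W : Submodule ℚ ((K →+* ℂ) → ℚ) => finrank ℚ W = 2), (Nat.card (Fail (cjp K) (autGrp K) W) : ℝ) ≤
        2 ^ g * (1100 * (2 * Real.log (3 * 2)) / g) := by
      intro W hW
      rw [Finset.mem_filter] at hW
      have := h₁ hS (h𝒲 W hW.1) (hnG W hW.1) x hg1 (by rw [hW.2])
      exact_mod_cast this
    refine (Finset.sum_le_sum h1).trans ?_
    rw [Finset.sum_const, nsmul_eq_mul]
    have h2 := fewSmall_count (K := K) 𝒲 h𝒲 hdim _ 6 (𝒲.filter (fun W : Submodule ℚ ((K →+* ℂ) → ℚ) => finrank ℚ W = 2))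
      (Finset.filter_subset _ _) (fun W hW => by
        rw [Finset.mem_filter] at hW
        exact fewSmall_two g hK W (h𝒲 W hW.1) hW.2 (fun hG => absurd hG (hnG W hW.1)))
    have h3 : ((𝒲.filter (fun W : Submodule ℚ ((K →+* ℂ) → ℚ) => finrank ℚ W = 2)).card : ℝ) ≤ (Nat.card {F : IntermediateField ℚ K //
        IsCMField F ∧ (finrank ℚ F = 4 ∨ finrank ℚ F = 6)} : ℝ) * 6 := by exact_mod_cast h2
    have h4 : 0 ≤ 2 ^ g * (1100 * (2 * Real.log (3 * 2)) / (g : ℝ)) := by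
      have := Real.log_nonneg (show (1 : ℝ) ≤ 3 * 2 by norm_num)
      positivity
    calc ((𝒲.filter (fun W : Submodule ℚ ((K →+* ℂ) → ℚ) => finrank ℚ W = 2)).card : ℝ) * (2 ^ g * (1100 * (2 * Real.log (3 * 2)) / g))
        ≤ ((Nat.card {F : IntermediateField ℚ K //
        IsCMField F ∧ (finrank ℚ F = 4 ∨ finrank ℚ F = 6)} : ℝ) * 6) *
          (2 ^ g * (1100 * (2 * Real.log (3 * 2)) / g)) := mul_le_mul_of_nonneg_right h3 h4
      _ = _ := by ring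
  have hsplit := Finset.sum_filter_add_sum_filter_not 𝒲 (fun W : Submodule ℚ ((K →+* ℂ) → ℚ) => finrank ℚ W = 2)
    (fun W => (Nat.card (Fail (cjp K) (autGrp K) W) : ℝ))
  rw [mul_add]
  linarith

end Pool.Agent.H9.US
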