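import Mathlib
import Pool.Agent.H9.EC.Few
import Pool.Agent.H9.US.Three

/-!
# Theorem U: the degenerate types: all CM fields (H9 US)

Copies of `bad_le_sum_c` (H52/EC/RepsC) and `ec_few` (H9/EC/Few) for the number of all degenerate types.
-/

open NumberField Module

namespace Pool.Agent.H9.US

open Pool.Agent.H52.MF Pool.Agent.H52.AD Pool.Agent.H52.CS Pool.Agent.H38.CM Pool.Agent.H42.OD Pool.Agent.H52.EC Pool.Agent.H9.EC Pool.Agent.H42.CM9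

section

variable {K : Type} [Field K] [NumberField K] [IsCMField K]

theorem bad_le_sum_c (g : ℕ) (hK : finrank ℚ K = 2 * g) (x₀ : K →+* ℂ) :
    ∃ 𝒲 : Finset (Submodule ℚ ((K →+* ℂ) → ℚ)), (∀ W ∈ 𝒲, Smp (cjp K) (autGrp K) W) ∧
      ∑ W ∈ 𝒲, finrank ℚ W * (finrank ℚ (Fix (autGrp K) x₀ W) / finrank ℚ (Endo (autGrp K) W)) ≤ g ∧
      (∀ 𝒱 ⊆ 𝒲, ∀ V : Submodule ℚ ((K →+* ℂ) → ℚ), (∀ W ∈ 𝒱, W ≤ V) →
        ∑ W ∈ 𝒱, finrank ℚ W ≤ finrank ℚ V) ∧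
      (∀ W ∈ 𝒲, ∀ W' ∈ 𝒲, Reps_iso (autGrp K) W W' → W = W') ∧
      (Nat.card (FailP (cjp K) (autGrp K) (fun _ => True)) : ℝ) ≤
        ∑ W ∈ 𝒲, (Nat.card (Fail (cjp K) (autGrp K) W) : ℝ) := by
  classical
  have hS := sys_cm g hK
  obtain ⟨𝒲, h𝒲, hrep, hsum, hdim, hiso⟩ := exists_reps_c hS x₀
  refine ⟨𝒲, h𝒲, hsum, hdim, hiso, ?_⟩
  have hfail : (Nat.card (FailP (cjp K) (autGrp K) (fun _ => True)) : ℝ) ≤
      Nat.card (FailP (cjp K) (autGrp K) (fun _ => True)) := by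
    exact le_refl _
  exact hfail.trans (fail_cover2 (c := cjp K) 𝒲 hrep)

end

theorem ec_few : ∃ C : ℝ, 0 ≤ C ∧ ∀ ε : ℝ, 0 < ε → ∃ D : ℕ,
    ∀ (K : Type) [Field K] [NumberField K] [IsCMField K] (g : ℕ), finrank ℚ K = 2 * g → D ≤ g →
    (Nat.card (FailP (cjp K) (autGrp K) (fun _ => True)) : ℝ) ≤
      2 ^ g * (ε + 80 * Nat.card {F : IntermediateField ℚ K // IsCMField F ∧ finrank ℚ F = 2} /
        Real.sqrt g + 26400 * Nat.card {F : IntermediateField ℚ K //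
          IsCMField F ∧ (finrank ℚ F = 4 ∨ finrank ℚ F = 6)} / g +
        C * (min (Nat.card {F : IntermediateField ℚ K //
          IsCMField F ∧ (finrank ℚ F = 4 ∨ finrank ℚ F = 6)}) (NumNonab K) : ℕ) *
            Real.log g / g) := by
  classical
  obtain ⟨C, hC0, hC⟩ := ec_sum
  refine ⟨12 * C, by positivity, fun ε hε => ?_⟩
  obtain ⟨g₀, h₀⟩ := hC ε hε
  refine ⟨g₀, ?_⟩
  intro K _ _ _ g hK hg
  have hS := sys_cm g hK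
  have hcard : 0 < Fintype.card (K →+* ℂ) := by
    rw [hS.card]
    have := hS.pos
    omega
  obtain ⟨x₀⟩ := Fintype.card_pos_iff.1 hcard
  obtain ⟨𝒲, h𝒲, hsum, hdim, hiso, hle⟩ := Pool.Agent.H9.US.bad_le_sum_c g hK x₀
  obtain ⟨a, ha⟩ : ∃ a, a = Nat.card {F : IntermediateField ℚ K // IsCMField F ∧ finrank ℚ F = 2} :=
    ⟨_, rfl⟩
  obtain ⟨b, hb⟩ : ∃ b, b = Nat.card {F : IntermediateField ℚ K //
      IsCMField F ∧ (finrank ℚ F = 4 ∨ finrank ℚ F = 6)} := ⟨_, rfl⟩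
  obtain ⟨k, hk⟩ : ∃ k, k = NumNonab K := ⟨_, rfl⟩
  rw [← ha, ← hb, ← hk]
  have hcnt1 : ∀ 𝒱 ⊆ 𝒲, (∀ W ∈ 𝒱, finrank ℚ W = 1) → 𝒱.card ≤ a * 2 := by
    intro 𝒱 h𝒱 h1
    rw [ha]
    exact fewSmall_count 𝒲 h𝒲 hdim _ 2 𝒱 h𝒱
      (fun W hW => fewSmall_one g hK W (h𝒲 W (h𝒱 hW)) (h1 W hW))
  have hcnt2 : ∀ 𝒱 ⊆ 𝒲, (∀ W ∈ 𝒱, finrank ℚ W = 2 ∧ (Gal (autGrp K) W →
      finrank ℚ (Endo (autGrp K) W) = finrank ℚ W)) → 𝒱.card ≤ b * 6 := by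
    intro 𝒱 h𝒱 h1
    rw [hb]
    exact fewSmall_count 𝒲 h𝒲 hdim _ 6 𝒱 h𝒱
      (fun W hW => fewSmall_two g hK W (h𝒲 W (h𝒱 hW)) (h1 W hW).1 (h1 W hW).2)
  have hcnt3 : ∀ 𝒱 ⊆ 𝒲, (∀ W ∈ 𝒱, finrank ℚ W = 2 ∧ Gal (autGrp K) W ∧
      finrank ℚ (Endo (autGrp K) W) = 1) → 𝒱.card ≤ min b k * 12 := by
    intro 𝒱 h𝒱 h1
    have h2 : 𝒱.card ≤ k * 12 := by
      rw [hk]
      exact fewSmall_count 𝒲 h𝒲 hdim _ 12 𝒱 h𝒱
        (fun W hW => two_field g hK W (h𝒲 W (h𝒱 hW)) (h1 W hW).2.1 (h1 W hW).1 (h1 W hW).2.2)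
    have h3 : 𝒱.card ≤ b * 6 := by
      rw [hb]
      exact Pool.Agent.H52.EC.plane_count g hK 𝒱
        (fun W hW => ⟨h𝒲 W (h𝒱 hW), (h1 W hW).2.1, (h1 W hW).1, (h1 W hW).2.2⟩)
        (fun W hW W' hW' h => hiso W (h𝒱 hW) W' (h𝒱 hW') h)
    omega
  have h1 := h₀ hS x₀ hg 𝒲 h𝒲 hsum (a * 2) (b * 6) (min b k * 12) hcnt1 hcnt2 hcnt3
  refine (hle.trans h1).trans (le_of_eq ?_)
  push_cast
  ring


end Pool.Agent.H9.US
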