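import Mathlib
import Pool.Agent.H42.OD.OddG
import Pool.Agent.H9.US.Three

/-!
# Theorem U: the degenerate types: one block, odd dimensions (H9 US)

Copies of `od_few`, `od_final`, `od_odd` (H42/OD) for the number of all degenerate types.
-/

open NumberField Module

namespace Pool.Agent.H9.US

open Module Pool.Agent.H52.AD Pool.Agent.H52.CS Pool.Agent.H52.MF Pool.Agent.H38.CM Pool.Agent.H42.OD


/-- All CM fields in which the Galois CM subfields are abelian, small or of degree two modulo four. -/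
theorem od_few (ε : ℝ) (hε : 0 < ε) : ∃ D : ℕ, 1 ≤ D ∧
    ∀ (K : Type) [Field K] [NumberField K] [IsCMField K] (g : ℕ), finrank ℚ K = 2 * g → D ≤ g →
    (∀ F : IntermediateField ℚ K, IsCMField F → IsGalois ℚ F →
      (∀ σ τ : F ≃ₐ[ℚ] F, σ * τ = τ * σ) ∨ ¬ 4 ∣ finrank ℚ F ∨ D * finrank ℚ F ^ 2 ≤ g) →
    (Nat.card (FailP (cjp K) (autGrp K) (fun _ => True)) : ℝ) ≤
      2 ^ g * (ε + 80 * Nat.card {F : IntermediateField ℚ K // IsCMField F ∧ finrank ℚ F = 2} /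
        Real.sqrt g + 26400 * Nat.card {F : IntermediateField ℚ K //
          IsCMField F ∧ (finrank ℚ F = 4 ∨ finrank ℚ F = 6)} / g) := by
  classical
  obtain ⟨g₁, hg₁⟩ := small_ab (ε / 4) (by positivity)
  obtain ⟨g₂, hg₂⟩ := bnd_g
  obtain ⟨g₃, hg₃⟩ := od_sum (ε / 4) (by positivity)
  obtain ⟨D₁, hD₁⟩ := exists_nat_ge ((320 / ε) ^ 2)
  refine ⟨g₁ + g₂ + g₃ + D₁ + 1, by omega, ?_⟩
  intro K _ _ _ g hK hg hGal
  obtain ⟨D, hD⟩ : ∃ D, D = g₁ + g₂ + g₃ + D₁ + 1 := ⟨_, rfl⟩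
  rw [← hD] at hg hGal
  have hS := sys_cm g hK
  have hc : ∀ x, cjp K x = ComplexEmbedding.conjugate x := fun x => rfl
  have hcard : 0 < Fintype.card (K →+* ℂ) := by
    rw [hS.card]
    have := hS.pos
    omega
  obtain ⟨x₀⟩ := Fintype.card_pos_iff.1 hcard
  obtain ⟨𝒲, h𝒲, hsum, hdim, hle⟩ := Pool.Agent.H9.US.bad_le_sum g hK x₀
  have hgR : (0 : ℝ) < g := by exact_mod_cast hS.pos
  have h2g : (0 : ℝ) < 2 ^ g := by positivity
  have hsq : 0 < Real.sqrt g := Real.sqrt_pos.2 hgR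
  obtain ⟨a, ha⟩ : ∃ a, a = Nat.card {F : IntermediateField ℚ K // IsCMField F ∧ finrank ℚ F = 2} :=
    ⟨_, rfl⟩
  obtain ⟨b, hb⟩ : ∃ b, b = Nat.card {F : IntermediateField ℚ K //
      IsCMField F ∧ (finrank ℚ F = 4 ∨ finrank ℚ F = 6)} := ⟨_, rfl⟩
  rw [← ha, ← hb]
  have hcnt1 : ∀ 𝒱 ⊆ 𝒲, (∀ W ∈ 𝒱, finrank ℚ W = 1) → 𝒱.card ≤ a * 2 := by
    intro 𝒱 h𝒱 h1
    rw [ha]
    exact fewSmall_count 𝒲 h𝒲 hdim _ 2 𝒱 h𝒱
      (fun W hW => fewSmall_one g hK W (h𝒲 W (h𝒱 hW)) (h1 W hW))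
  have hcnt2 : ∀ 𝒱 ⊆ 𝒲, (∀ W ∈ 𝒱, finrank ℚ W = 2) → (∀ W ∈ 𝒱, Gal (autGrp K) W →
      finrank ℚ (Endo (autGrp K) W) = finrank ℚ W) → 𝒱.card ≤ b * 6 := by
    intro 𝒱 h𝒱 h1 h2
    rw [hb]
    exact fewSmall_count 𝒲 h𝒲 hdim _ 6 𝒱 h𝒱
      (fun W hW => fewSmall_two g hK W (h𝒲 W (h𝒱 hW)) (h1 W hW) (h2 W hW))
  have hkey : ∀ 𝒲' ⊆ 𝒲, (∀ W ∈ 𝒲', Gal (autGrp K) W →
      finrank ℚ (Endo (autGrp K) W) = finrank ℚ W) →
      ∑ W ∈ 𝒲', (Nat.card (Fail (cjp K) (autGrp K) W) : ℝ) ≤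
        2 ^ g * (ε / 4 + 80 * a / Real.sqrt g + 26400 * b / g) := by
    intro 𝒲' h𝒲' hGe
    have h1 := hg₁ hS x₀ (by omega) 𝒲' (fun W hW => h𝒲 W (h𝒲' hW)) hGe
      ((Finset.sum_le_sum_of_subset h𝒲').trans hsum) (a * 2) (b * 6)
      (fun 𝒱 h𝒱 h1 => hcnt1 𝒱 (h𝒱.trans h𝒲') h1)
      (fun 𝒱 h𝒱 h1 => hcnt2 𝒱 (h𝒱.trans h𝒲') h1 (fun W hW => hGe W (h𝒱 hW)))
    refine h1.trans (le_of_eq ?_)
    push_cast
    ring
  refine hle.trans ?_
  have hnn : 0 ≤ 80 * (a : ℝ) / Real.sqrt g + 26400 * b / g := by positivity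
  by_cases hne : (𝒲.filter (fun W => Gal (autGrp K) W)).Nonempty
  · obtain ⟨W₀, hW₀⟩ := hne
    rw [Finset.mem_filter] at hW₀
    obtain ⟨F, hF1, hF2, hF3⟩ := gen_gal2 (cjp K) hc W₀ (h𝒲 W₀ hW₀.1) hW₀.2
    rcases hGal F hF1 hF2 with hab | h4 | h3
    · -- abelian case
      have h1 := hkey 𝒲 (Finset.Subset.refl _)
        (fun W hW hG => gal_ab (cjp K) W (h𝒲 W hW) F hF2 hab (hF3 W hG))
      refine h1.trans ?_
      refine mul_le_mul_of_nonneg_left ?_ h2g.le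
      linarith
    · -- degree two modulo four
      have hG4 : ∀ W ∈ 𝒲, Gal (autGrp K) W → ¬ 4 ∣ Nat.card (Gm (autGrp K) W) := by
        intro W hW hG h
        exact h4 (h.trans (gm_dvd_gal W (h𝒲 W hW).2.2.1 F hF2 (hF3 W hG)))
      have h1 := hg₃ hS x₀ (by omega) 𝒲 h𝒲 hG4 hsum (a * 2) (b * 6) hcnt1 (by
        intro 𝒱 h𝒱 h2
        refine hcnt2 𝒱 h𝒱 h2 (fun W hW hG => ?_)
        have h5 := endo_ge_two4 hS (h𝒲 W (h𝒱 hW)) (hG4 W (h𝒱 hW) hG) (by rw [h2 W hW])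
        have h6 := endo_dvd_dim (h𝒲 W (h𝒱 hW))
        rw [h2 W hW] at h6 ⊢
        have h7 := Nat.le_of_dvd (by norm_num) h6
        omega)
      refine h1.trans ?_
      refine mul_le_mul_of_nonneg_left ?_ h2g.le
      push_cast
      have h8 : 40 * ((a : ℝ) * 2) / Real.sqrt g = 80 * a / Real.sqrt g := by ring
      have h9 : 4400 * ((b : ℝ) * 6) / g = 26400 * b / g := by ring
      rw [h8, h9]
      linarith
    · -- small case
      have hD1 : (320 / ε) ^ 2 ≤ (D : ℝ) := by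
        refine hD₁.trans ?_
        have : D₁ ≤ D := by omega
        exact_mod_cast this
      have hA : ∑ W ∈ 𝒲.filter (fun W => Gal (autGrp K) W),
          (Nat.card (Fail (cjp K) (autGrp K) W) : ℝ) ≤ 2 ^ g * (ε / 4) := by
        have h1 := hdim (𝒲.filter (fun W => Gal (autGrp K) W)) (Finset.filter_subset _ _) (VF F)
          (fun W hW => hF3 W (Finset.mem_filter.1 hW).2)
        have h2 : ∑ W ∈ 𝒲.filter (fun W => Gal (autGrp K) W), finrank ℚ W ≤ finrank ℚ F :=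
          h1.trans (finrank_VF F)
        have h4 : ∀ W ∈ 𝒲.filter (fun W => Gal (autGrp K) W),
            (Nat.card (Fail (cjp K) (autGrp K) W) : ℝ) ≤
              2 ^ g * (40 * finrank ℚ W / Real.sqrt g) := by
          intro W hW
          obtain ⟨hW1, hW2⟩ := Finset.mem_filter.1 hW
          refine hg₂ hS (h𝒲 W hW1) hW2 x₀ (by omega) ?_
          have h5 : finrank ℚ W ≤ finrank ℚ F :=
            (Submodule.finrank_mono (hF3 W hW2)).trans (finrank_VF F)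
          calc finrank ℚ W ^ 2 ≤ finrank ℚ F ^ 2 := Nat.pow_le_pow_left h5 2
            _ ≤ D * finrank ℚ F ^ 2 := Nat.le_mul_of_pos_left _ (by omega)
            _ ≤ g := h3
        refine (Finset.sum_le_sum h4).trans ?_
        rw [← Finset.mul_sum, ← Finset.sum_div, ← Finset.mul_sum]
        refine mul_le_mul_of_nonneg_left ?_ h2g.le
        rw [div_le_iff₀ hsq]
        have h6 : (∑ W ∈ 𝒲.filter (fun W => Gal (autGrp K) W), (finrank ℚ W : ℝ)) ≤
            finrank ℚ F := by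
          exact_mod_cast h2
        have h7 : (320 / ε * finrank ℚ F : ℝ) ≤ Real.sqrt g := by
          apply Real.le_sqrt_of_sq_le
          have h8 : ((D * finrank ℚ F ^ 2 : ℕ) : ℝ) ≤ g := by exact_mod_cast h3
          push_cast at h8
          calc (320 / ε * finrank ℚ F : ℝ) ^ 2 = (320 / ε) ^ 2 * (finrank ℚ F : ℝ) ^ 2 := by ring
            _ ≤ (D : ℝ) * (finrank ℚ F : ℝ) ^ 2 := by gcongr
            _ ≤ g := h8
        calc 40 * (∑ W ∈ 𝒲.filter (fun W => Gal (autGrp K) W), (finrank ℚ W : ℝ)) ≤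
            80 * (finrank ℚ F : ℝ) := by
              have h9 : (0 : ℝ) ≤ finrank ℚ F := Nat.cast_nonneg _
              linarith
          _ = ε / 4 * (320 / ε * finrank ℚ F) := by field_simp; ring
          _ ≤ ε / 4 * Real.sqrt g := by gcongr
      have hB := hkey (𝒲.filter (fun W => ¬ Gal (autGrp K) W)) (Finset.filter_subset _ _)
        (fun W hW hG => absurd hG (Finset.mem_filter.1 hW).2)
      have hsplit := Finset.sum_filter_add_sum_filter_not 𝒲 (fun W => Gal (autGrp K) W)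
        (fun W => (Nat.card (Fail (cjp K) (autGrp K) W) : ℝ))
      have hfin : 2 ^ g * (ε / 4) + 2 ^ g * (ε / 4 + 80 * a / Real.sqrt g + 26400 * b / g) ≤
          2 ^ g * (ε + 80 * a / Real.sqrt g + 26400 * b / g) := by
        rw [← mul_add]
        refine mul_le_mul_of_nonneg_left ?_ h2g.le
        linarith
      linarith
  · rw [Finset.not_nonempty_iff_eq_empty] at hne
    have h1 := hkey 𝒲 (Finset.Subset.refl _) (by
      intro W hW hG
      exfalso
      have h2 : W ∈ 𝒲.filter (fun W => Gal (autGrp K) W) := Finset.mem_filter.2 ⟨hW, hG⟩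
      rw [hne] at h2
      exact absurd h2 (Finset.notMem_empty W))
    refine h1.trans ?_
    refine mul_le_mul_of_nonneg_left ?_ h2g.le
    linarith

theorem od_final : ∃ C : ℝ, ∀ ε : ℝ, 0 < ε → ∃ D : ℕ,
    ∀ (K : Type) [Field K] [NumberField K] [IsCMField K] (g N a b : ℕ),
      finrank ℚ K = 2 * g → D ≤ g →
      N = Subfield.relfinrank (⨆ z : K →+* ℂ, (maximalRealSubfield K).map z)
        (⨆ z : K →+* ℂ, z.fieldRange) →
      a = Nat.card {F : IntermediateField ℚ K // IsCMField F ∧ finrank ℚ F = 2} →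
      b = Nat.card {F : IntermediateField ℚ K //
        IsCMField F ∧ (finrank ℚ F = 4 ∨ finrank ℚ F = 6)} →
      (4 ≤ N ∨ ∀ F : IntermediateField ℚ K, IsCMField F → IsGalois ℚ F →
        (∀ σ τ : F ≃ₐ[ℚ] F, σ * τ = τ * σ) ∨ ¬ 4 ∣ finrank ℚ F ∨ D * finrank ℚ F ^ 2 ≤ g) →
      Nat.card {Φ : Set (K →+* ℂ) // IsCMType Φ} = 2 ^ g ∧
      (Nat.card (FailP (cjp K) (autGrp K) (fun _ => True)) : ℝ) ≤
        2 ^ g * ((if 4 ≤ N then (g : ℝ) ^ (-(1 / 50) : ℝ) else ε) +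
          (if 8 ≤ N then 0 else C * (a / Real.sqrt g + b / g))) := by
  obtain ⟨g₁, h₁⟩ := Pool.Agent.H9.US.three_case
  obtain ⟨C₂, g₂, h₂⟩ := Pool.Agent.H9.US.two_case
  refine ⟨max C₂ 26400, fun ε hε => ?_⟩
  obtain ⟨D₀, hD₀, h₀⟩ := od_few ε hε
  refine ⟨D₀ + g₁ + g₂, ?_⟩
  intro K _ _ _ g N a b hK hg hN ha hb hcond
  obtain ⟨x⟩ : Nonempty (K →+* ℂ) := inferInstance
  refine ⟨card_cmTypes g hK, ?_⟩
  have hgR : (0 : ℝ) ≤ g := Nat.cast_nonneg g
  have h2g : (0 : ℝ) ≤ 2 ^ g := by positivity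
  have hC0 : 0 ≤ max C₂ 26400 := le_trans (by norm_num) (le_max_right _ _)
  have hag : 0 ≤ (a : ℝ) / Real.sqrt g := by positivity
  have hbg : 0 ≤ (b : ℝ) / g := by positivity
  by_cases h8 : 8 ≤ N
  · have h4 : 4 ≤ N := by omega
    rw [if_pos h4, if_pos h8, add_zero]
    exact h₁ K g hK (by omega) x (Pool.Agent.H42.CM9.blk_lt_of_eight g hK (hN ▸ h8) x)
  · rw [if_neg h8]
    by_cases h4 : 4 ≤ N
    · rw [if_pos h4]
      refine (h₂ K g hK (by omega) x
        (Pool.Agent.H42.CM9.blk_le_of_four g hK (hN ▸ h4) x)).trans ?_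
      refine mul_le_mul_of_nonneg_left ?_ h2g
      rw [← hb]
      have h3 : C₂ * (b : ℝ) / g ≤ max C₂ 26400 * (b / g) := by
        rw [mul_div_assoc]
        exact mul_le_mul_of_nonneg_right (le_max_left _ _) hbg
      have h5 : 0 ≤ max C₂ 26400 * (a / Real.sqrt g) := mul_nonneg hC0 hag
      rw [mul_add]
      linarith
    · rw [if_neg h4]
      have hcond' : ∀ F : IntermediateField ℚ K, IsCMField F → IsGalois ℚ F →
          (∀ σ τ : F ≃ₐ[ℚ] F, σ * τ = τ * σ) ∨ ¬ 4 ∣ finrank ℚ F ∨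
            D₀ * finrank ℚ F ^ 2 ≤ g := by
        intro F hF1 hF2
        rcases hcond with h | h
        · exact absurd h h4
        · rcases h F hF1 hF2 with h5 | h5 | h5
          · exact Or.inl h5
          · exact Or.inr (Or.inl h5)
          · refine Or.inr (Or.inr (le_trans (Nat.mul_le_mul_right _ ?_) h5))
            omega
      refine (h₀ K g hK (by omega) hcond').trans ?_
      refine mul_le_mul_of_nonneg_left ?_ h2g
      rw [← ha, ← hb]
      have h3 : 26400 * (b : ℝ) / g ≤ max C₂ 26400 * (b / g) := by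
        rw [mul_div_assoc]
        exact mul_le_mul_of_nonneg_right (le_max_right _ _) hbg
      have h5 : 80 * (a : ℝ) / Real.sqrt g ≤ max C₂ 26400 * (a / Real.sqrt g) := by
        rw [mul_div_assoc]
        refine mul_le_mul_of_nonneg_right (le_trans (by norm_num) (le_max_right _ _)) hag
      rw [mul_add]
      linarith

theorem od_odd : ∃ C : ℝ, ∀ ε : ℝ, 0 < ε → ∃ D : ℕ,
    ∀ (K : Type) [Field K] [NumberField K] [IsCMField K] (g N a b : ℕ),
      finrank ℚ K = 2 * g → D ≤ g →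
      N = Subfield.relfinrank (⨆ z : K →+* ℂ, (maximalRealSubfield K).map z)
        (⨆ z : K →+* ℂ, z.fieldRange) →
      a = Nat.card {F : IntermediateField ℚ K // IsCMField F ∧ finrank ℚ F = 2} →
      b = Nat.card {F : IntermediateField ℚ K //
        IsCMField F ∧ (finrank ℚ F = 4 ∨ finrank ℚ F = 6)} →
      Nat.card {Φ : Set (K →+* ℂ) // IsCMType Φ} = 2 ^ g ∧
      ((4 ≤ N ∨ ∀ F : IntermediateField ℚ K, IsCMField F → IsGalois ℚ F →
        (∀ σ τ : F ≃ₐ[ℚ] F, σ * τ = τ * σ) ∨ ¬ 4 ∣ finrank ℚ F ∨ D * finrank ℚ F ^ 2 ≤ g) →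
      (Nat.card (FailP (cjp K) (autGrp K) (fun _ => True)) : ℝ) ≤
        2 ^ g * ((if 4 ≤ N then (g : ℝ) ^ (-(1 / 50) : ℝ) else ε) +
          (if 8 ≤ N then 0 else C * (a / Real.sqrt g + b / g)))) ∧
      (Odd g → (Nat.card (FailP (cjp K) (autGrp K) (fun _ => True)) : ℝ) ≤
        2 ^ g * (ε + C * b / g)) ∧
      (Odd g → ¬ 3 ∣ g →
        (Nat.card (FailP (cjp K) (autGrp K) (fun _ => True)) : ℝ) ≤ 2 ^ g * ε) := by
  obtain ⟨C, hC⟩ := od_final
  refine ⟨max C 0, fun ε hε => ?_⟩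
  obtain ⟨D₁, h₁⟩ := hC ε hε
  obtain ⟨D₂, h₂⟩ := hC (ε / 2) (by positivity)
  have t1 : Filter.Tendsto (fun g : ℕ => (g : ℝ) ^ (-(1 / 50) : ℝ)) Filter.atTop (nhds 0) :=
    (tendsto_rpow_neg_atTop (by norm_num)).comp tendsto_natCast_atTop_atTop
  have t2 : Filter.Tendsto (fun g : ℕ => max C 0 * (1 / Real.sqrt g)) Filter.atTop (nhds 0) := by
    have h : Filter.Tendsto (fun g : ℕ => Real.sqrt g) Filter.atTop Filter.atTop :=
      Real.tendsto_sqrt_atTop.comp tendsto_natCast_atTop_atTop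
    have h' := (tendsto_const_nhds (x := (1 : ℝ))).div_atTop h
    simpa using h'.const_mul (max C 0)
  obtain ⟨D₃, h₃⟩ := Filter.eventually_atTop.1 (t1.eventually (gt_mem_nhds (half_pos hε)))
  obtain ⟨D₄, h₄⟩ := Filter.eventually_atTop.1 (t2.eventually (gt_mem_nhds (half_pos hε)))
  refine ⟨D₁ + D₂ + D₃ + D₄, ?_⟩
  intro K _ _ _ g N a b hK hg hN ha hb
  have hgR : (0 : ℝ) ≤ g := Nat.cast_nonneg g
  have h2g : (0 : ℝ) ≤ 2 ^ g := by positivity
  have hab : 0 ≤ (a : ℝ) / Real.sqrt g + b / g := by positivity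
  have hCC : C * ((a : ℝ) / Real.sqrt g + b / g) ≤ max C 0 * (a / Real.sqrt g + b / g) :=
    mul_le_mul_of_nonneg_right (le_max_left _ _) hab
  have key : Odd g → (Nat.card (FailP (cjp K) (autGrp K) (fun _ => True)) : ℝ) ≤
      2 ^ g * (ε + max C 0 * b / g) := by
    intro hodd
    have hcond : ∀ F : IntermediateField ℚ K, IsCMField F → IsGalois ℚ F →
        (∀ σ τ : F ≃ₐ[ℚ] F, σ * τ = τ * σ) ∨ ¬ 4 ∣ finrank ℚ F ∨ D₂ * finrank ℚ F ^ 2 ≤ g := by
      intro F _ _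
      refine Or.inr (Or.inl ?_)
      intro h4
      have h5 := h4.trans (finrank_dvd' F)
      rw [hK] at h5
      rcases hodd with ⟨k, hk⟩
      omega
    refine (h₂ K g N a b hK (by omega) hN ha hb (Or.inr hcond)).2.trans ?_
    refine mul_le_mul_of_nonneg_left ?_ h2g
    have ha1 : (a : ℝ) ≤ 1 := by
      have := card_quad_le hK hodd
      rw [← ha] at this
      exact_mod_cast this
    have h5 : (if 4 ≤ N then (g : ℝ) ^ (-(1 / 50) : ℝ) else ε / 2) ≤ ε / 2 := by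
      split_ifs
      · exact (h₃ g (by omega)).le
      · exact le_refl _
    have h6 : (if 8 ≤ N then 0 else C * ((a : ℝ) / Real.sqrt g + b / g)) ≤
        max C 0 * (a / Real.sqrt g + b / g) := by
      split_ifs
      · exact mul_nonneg (le_max_right _ _) hab
      · exact hCC
    have h7 : (a : ℝ) / Real.sqrt g ≤ 1 / Real.sqrt g :=
      div_le_div_of_nonneg_right ha1 (Real.sqrt_nonneg _)
    have h8 := h₄ g (by omega)
    have h9 : max C 0 * ((a : ℝ) / Real.sqrt g) ≤ max C 0 * (1 / Real.sqrt g) :=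
      mul_le_mul_of_nonneg_left h7 (le_max_right _ _)
    have h10 : max C 0 * ((a : ℝ) / Real.sqrt g + b / g) =
        max C 0 * (a / Real.sqrt g) + max C 0 * b / g := by
      rw [mul_add, mul_div_assoc (max C 0) (b : ℝ)]
    linarith
  refine ⟨card_cmTypes g hK, fun hcond => ?_, key, fun hodd h3 => ?_⟩
  · have hcond' : 4 ≤ N ∨ ∀ F : IntermediateField ℚ K, IsCMField F → IsGalois ℚ F →
        (∀ σ τ : F ≃ₐ[ℚ] F, σ * τ = τ * σ) ∨ ¬ 4 ∣ finrank ℚ F ∨ D₁ * finrank ℚ F ^ 2 ≤ g := by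
      rcases hcond with h | h
      · exact Or.inl h
      · refine Or.inr fun F hF1 hF2 => ?_
        rcases h F hF1 hF2 with h5 | h5 | h5
        · exact Or.inl h5
        · exact Or.inr (Or.inl h5)
        · refine Or.inr (Or.inr (le_trans (Nat.mul_le_mul_right _ ?_) h5))
          omega
    refine (h₁ K g N a b hK (by omega) hN ha hb hcond').2.trans ?_
    refine mul_le_mul_of_nonneg_left ?_ h2g
    split_ifs <;> linarith
  · refine (key hodd).trans ?_
    have hb0 : b = 0 := by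
      rw [hb, Nat.card_eq_zero]
      left
      refine ⟨?_⟩
      rintro ⟨F, -, h4 | h6⟩
      · have h5 := finrank_dvd' F
        rw [hK, h4] at h5
        rcases hodd with ⟨k, hk⟩
        omega
      · have h5 := finrank_dvd' F
        rw [hK, h6] at h5
        omega
    rw [hb0]
    simp


end Pool.Agent.H9.US
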