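import Mathlib
import Pool.Agent.H9.EC.Final
import Pool.Agent.H9.US.Odd
import Pool.Agent.H9.US.Few

/-!
# Theorem U: the number of the degenerate types (H9 US)

Copy of `ec_final` (H9/EC/Final) for the number `NumDeg K` of all degenerate types: those orthogonal to some simple space.
-/

open NumberField Module

namespace Pool.Agent.H9.US

open Pool.Agent.H52.MF Pool.Agent.H52.AD Pool.Agent.H52.CS Pool.Agent.H38.CM Pool.Agent.H42.OD Pool.Agent.H9.EC

/-- The number of the degenerate CM types. -/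
noncomputable def NumDeg (K : Type) [Field K] [NumberField K] : ℕ :=
  Nat.card (FailP (cjp K) (autGrp K) (fun _ => True))

theorem us_count : ∃ C : ℝ, ∀ ε : ℝ, 0 < ε → ∃ D : ℕ,
    ∀ (K : Type) [Field K] [NumberField K] [IsCMField K] (g N a b k : ℕ),
      finrank ℚ K = 2 * g → D ≤ g → N = ClosDeg K → a = NumCM K {2} → b = NumCM K {4, 6} →
      k = NumNonab K →
      NumTypes K = 2 ^ g ∧
      ((NumDeg K : ℝ) ≤ 2 ^ g * ((if 4 ≤ N then (g : ℝ) ^ (-(1 / 50) : ℝ) else ε) +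
        (if 8 ≤ N then 0 else C * (a / Real.sqrt g + b / g + (min b k : ℕ) * Real.log g / g)))) ∧
      (Odd g → (NumDeg K : ℝ) ≤ 2 ^ g * (ε + C * b / g)) ∧
      (Odd g → ¬ 3 ∣ g → (NumDeg K : ℝ) ≤ 2 ^ g * ε) := by
  obtain ⟨g₁, h₁⟩ := Pool.Agent.H9.US.three_case
  obtain ⟨C₂, g₂, h₂⟩ := Pool.Agent.H9.US.two_case
  obtain ⟨C₃, hC₃, h₃⟩ := Pool.Agent.H9.US.ec_few
  obtain ⟨C₄, h₄⟩ := Pool.Agent.H9.US.od_odd
  refine ⟨max (max C₂ C₃) (max C₄ 26400), fun ε hε => ?_⟩
  obtain ⟨D₀, h₀⟩ := h₃ ε hε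
  obtain ⟨D₄, hD₄⟩ := h₄ ε hε
  refine ⟨D₀ + g₁ + g₂ + D₄, ?_⟩
  intro K _ _ _ g N a b k hK hg hN ha hb hk
  obtain ⟨x⟩ : Nonempty (K →+* ℂ) := inferInstance
  have hS := sys_cm g hK
  have hgR1 : (1 : ℝ) ≤ g := by exact_mod_cast hS.pos
  have hgR : (0 : ℝ) ≤ g := Nat.cast_nonneg g
  have hlog : 0 ≤ Real.log g := Real.log_nonneg hgR1
  have h2g : (0 : ℝ) ≤ 2 ^ g := by positivity
  obtain ⟨M, hM⟩ : ∃ M, M = max (max C₂ C₃) (max C₄ 26400) := ⟨_, rfl⟩
  rw [← hM]
  have hM2 : C₂ ≤ M := by rw [hM]; exact le_trans (le_max_left _ _) (le_max_left _ _)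
  have hM3 : C₃ ≤ M := by rw [hM]; exact le_trans (le_max_right _ _) (le_max_left _ _)
  have hM4 : C₄ ≤ M := by rw [hM]; exact le_trans (le_max_left _ _) (le_max_right _ _)
  have hM5 : 26400 ≤ M := by rw [hM]; exact le_trans (le_max_right _ _) (le_max_right _ _)
  have hM0 : 0 ≤ M := le_trans (by norm_num) hM5
  have hag : 0 ≤ (a : ℝ) / Real.sqrt g := by positivity
  have hbg : 0 ≤ (b : ℝ) / g := by positivity
  obtain ⟨m, hm⟩ : ∃ m : ℕ, m = min b k := ⟨_, rfl⟩
  rw [← hm]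
  have hkg : 0 ≤ (m : ℝ) * Real.log g / g := by positivity
  obtain ⟨hT, -, hO1, hO2⟩ := hD₄ K g N a b hK (by omega) hN ha hb
  refine ⟨hT, ?_, ?_, hO2⟩
  · by_cases h8 : 8 ≤ N
    · have h4 : 4 ≤ N := by omega
      rw [if_pos h4, if_pos h8, add_zero]
      exact h₁ K g hK (by omega) x (Pool.Agent.H42.CM9.blk_lt_of_eight g hK (by rw [hN] at h8; exact h8) x)
    · rw [if_neg h8]
      by_cases h4 : 4 ≤ N
      · rw [if_pos h4]
        refine (h₂ K g hK (by omega) x
          (Pool.Agent.H42.CM9.blk_le_of_four g hK (by rw [hN] at h4; exact h4) x)).trans ?_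
        refine mul_le_mul_of_nonneg_left ?_ h2g
        rw [← NumCM_four K, ← hb]
        have h3 : C₂ * (b : ℝ) / g ≤ M * (b / g) := by
          rw [mul_div_assoc]
          exact mul_le_mul_of_nonneg_right hM2 hbg
        have h5 : 0 ≤ M * (a / Real.sqrt g) := mul_nonneg hM0 hag
        have h6 : 0 ≤ M * (m * Real.log g / g) := mul_nonneg hM0 hkg
        rw [mul_add, mul_add]
        linarith
      · rw [if_neg h4]
        refine (h₀ K g hK (by omega)).trans ?_
        refine mul_le_mul_of_nonneg_left ?_ h2g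
        rw [← NumCM_two K, ← NumCM_four K, ← ha, ← hb, ← hk, ← hm]
        have h3 : 26400 * (b : ℝ) / g ≤ M * (b / g) := by
          rw [mul_div_assoc]
          exact mul_le_mul_of_nonneg_right hM5 hbg
        have h5 : 80 * (a : ℝ) / Real.sqrt g ≤ M * (a / Real.sqrt g) := by
          rw [mul_div_assoc]
          exact mul_le_mul_of_nonneg_right (le_trans (by norm_num) hM5) hag
        have h6 : C₃ * (m : ℝ) * Real.log g / g ≤ M * (m * Real.log g / g) := by
          have h7 : C₃ * (m : ℝ) * Real.log g / g = C₃ * (m * Real.log g / g) := by ring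
          rw [h7]
          exact mul_le_mul_of_nonneg_right hM3 hkg
        rw [mul_add, mul_add]
        linarith
  · intro hodd
    refine (hO1 hodd).trans ?_
    refine mul_le_mul_of_nonneg_left ?_ h2g
    have h3 : C₄ * (b : ℝ) / g ≤ M * b / g := by
      rw [mul_div_assoc, mul_div_assoc]
      exact mul_le_mul_of_nonneg_right hM4 hbg
    linarith


end Pool.Agent.H9.US
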