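import Pool.Agent.H52.AD.FinalT2
import Pool.Agent.H9.US.Count

/-!
# Theorem U: almost all dimensions, all degenerate types (H9 US)

Copy of `almost_all_t` (H52/AD/FinalT2) for the number of all degenerate types.
-/

open NumberField Module Filter Topology

namespace Pool.Agent.H9.US

open Pool.Agent.H38.CM Pool.Agent.H52.MF Pool.Agent.H52.AD

open Classical in
theorem almost_all_deg (θ : ℝ) (h0 : 0 < θ) (h1 : θ < 1) :
    Tendsto (fun x : ℕ => (((Finset.Icc 1 x).filter (fun g : ℕ =>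
    ∀ (K : Type) [Field K] [NumberField K] [IsCMField K], finrank ℚ K = 2 * g →
      (NumDeg K : ℝ) * Real.exp (Real.log g ^ θ) ≤ 2 ^ g)).card : ℝ) / x) atTop (𝓝 1) := by
  obtain ⟨x₁, hx₁⟩ := comb_t θ h0 h1
  refine dens_mono (fun x g => √(x : ℝ) ≤ g ∧
    Typ (Yp x) (Y2t θ x) (tp x) (z1 x) (z2t x) g) _ x₁ ?_ (by convert dens_typ_t θ h0 h1)
  rintro x hx g hg1 hgx ⟨hg2, hT⟩ K _ _ _ hK
  exact hx₁ x hx g hg2 hgx hT (sys_cm g hK)

end Pool.Agent.H9.US
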