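import Mathlib
import Pool.Agent.H68.HT.Main
import Pool.Agent.H64.CO.Unl
import Pool.Agent.H52.AD.RepsB

/-!
# Theorem U: from Theorem T to signatures (H9 US)

`Good K m r`: for EVERY abelian variety `A` (up to isogeny: `V = H₁(A, ℚ)`, `F = H^{1,0}`) on which `K` acts with multiplicity `m` and
signature `r`, and such that every endomorphism which commutes with `K` is in `K`, all Hodge classes on all powers are generated by divisor
classes.
-/

set_option autoImplicit false

open NumberField Module

namespace Pool.Agent.H9.US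

open Pool.Agent.H68.HT

variable {K : Type} [Field K] [NumberField K] [IsCMField K]

/-- Every abelian variety with an action of `K` of multiplicity `m` and signature `r` such that `K` is its own commutant in `End⁰(A)` satisfies
`DivGen`. -/
def Good (K : Type) [Field K] [NumberField K] (m : ℕ) (r : (K →+* ℂ) → ℕ) : Prop :=
  ∀ (V : Type) [AddCommGroup V] [Module ℚ V] [FiniteDimensional ℚ V] (F : Submodule ℂ (H V)),
    IsAbelian F → ∀ φ : K →+* EndA F,
    (∀ s, mult φ s = m) → (∀ s, hol φ s = r s) →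
    (∀ f ∈ EndA F, (∀ a : K, f * (φ a : Module.End ℚ V) = (φ a : Module.End ℚ V) * f) →
      ∃ a : K, (φ a : Module.End ℚ V) = f) → DivGen F

theorem cb_eq (s : K →+* ℂ) : cb s = ComplexEmbedding.conjugate s := by
  ext x
  rfl

theorem cj_eq (ρ : ℂ ≃+* ℂ) (s : K →+* ℂ) : cj ρ s = (ρ : ℂ →+* ℂ).comp s := rfl

/-- from orthogonality to span -/
theorem span_of_orth {X : Type} [Fintype X] (c : X → X) (T : Set (X → ℚ))
    (hT : ∀ f ∈ T, ∀ x, f (c x) = - f x)
    (h : ∀ g : X → ℚ, (∀ x, g (c x) = - g x) → (∀ f ∈ T, ∑ x, g x * f x = 0) → g = 0)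
    (g : X → ℚ) (hg : ∀ x, g (c x) = - g x) : g ∈ Submodule.span ℚ T := by
  classical
  obtain ⟨P, hP⟩ := Pool.Agent.H52.AD.exists_pr (Submodule.span ℚ T)
  have hodd : ∀ f ∈ Submodule.span ℚ T, ∀ x, f (c x) = - f x := by
    intro f hf
    induction hf using Submodule.span_induction with
    | mem f hf => exact hT f hf
    | zero => intro x; simp
    | add f f' _ _ h1 h2 => intro x; rw [Pi.add_apply, Pi.add_apply, h1, h2]; ring
    | smul q f _ h1 => intro x; rw [Pi.smul_apply, Pi.smul_apply, h1]; simp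
  have h1 : g - P.mulVec g = 0 := by
    refine h _ (fun x => ?_) (fun f hf => ?_)
    · rw [Pi.sub_apply, Pi.sub_apply, hg, hodd _ (hP.2.1 g)]
      ring
    · have h2 : P.mulVec f = f := hP.2.2 f (Submodule.subset_span hf)
      have h3 : ∑ x, (P.mulVec g) x * f x = ∑ x, g x * (P.mulVec f) x := by
        have h4 : (P.mulVec g) ⬝ᵥ f = g ⬝ᵥ (P.mulVec f) := by
          rw [dotProduct_comm, Matrix.dotProduct_mulVec, ← Matrix.mulVec_transpose,
            hP.1, dotProduct_comm]
        exact h4
      rw [h2] at h3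
      simp only [Pi.sub_apply, sub_mul]
      rw [Finset.sum_sub_distrib, h3, sub_self]
  have h2 : g = P.mulVec g := sub_eq_zero.1 h1
  rw [h2]
  exact hP.2.1 g

theorem good_of {m : ℕ} (hm : 1 ≤ m) {r : (K →+* ℂ) → ℕ}
    (hr : ∀ x, r x + r (ComplexEmbedding.conjugate x) = m)
    (hco : ∀ x : K →+* ℂ, ∃ ρ : ℂ ≃+* ℂ, Nat.Coprime (r (cj ρ x)) m)
    (hU : m = 1 ∨ Pool.Agent.H64.CO.Unl m r)
    (hS : Pool.Agent.H64.CO.Spans fun x => 2 * (r x : ℤ) - m) : Good K m r := by
  classical
  intro V _ _ _ F hF φ hmult hhol hcom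
  have hwt : ∀ s : K →+* ℂ, wt φ s = 2 * (r s : ℤ) - m := by
    intro s
    unfold wt
    rw [hmult, hhol]
  have hinj : Function.Injective φ := by
    obtain ⟨s⟩ : Nonempty (K →+* ℂ) := inferInstance
    have h1 : Nontrivial (EndA F) := by
      by_contra hcon
      rw [not_nontrivial_iff_subsingleton] at hcon
      have h2 : eig φ s = ⊥ := by
        rw [Submodule.eq_bot_iff]
        intro ω hω
        have h3 := hω 0
        have h4 := hω 1
        have h5 : φ 0 = φ 1 := Subsingleton.elim _ _
        rw [h5, h4, map_one, map_zero, zero_smul, one_smul] at h3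
        exact h3
      have h3 := hmult s
      unfold mult at h3
      rw [h2, finrank_bot] at h3
      omega
    exact φ.injective
  refine (theoremT hF φ hinj hcom cm_conj cm_real (fun s => ?_) (fun R hR s t hst => ?_)).1 ?_
  · obtain ⟨ρ, hρ⟩ := hco s
    refine ⟨ρ, ?_⟩
    rw [hmult, hhol]
    exact hρ
  · rcases hU with h1 | h1
    · left
      by_contra hne
      have h2 := (hR.dim s t hst (fun h => hne h.symm)).2
      rw [hmult] at h2
      omega
    · by_contra hcon
      rw [not_or] at hcon
      obtain ⟨τ, h2, h3⟩ := h1 s t hcon.1 (by rw [← cb_eq]; exact hcon.2)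
      have h4 := hR.hodge _ _ (hR.aut τ s t hst)
      rw [hhol, hhol, hmult, hmult] at h4
      rcases h4 with h4 | ⟨h4, h5⟩
      · exact h3 h4
      · unfold Pool.Agent.H64.CO.Indef at h2
        rw [← cj_eq, ← cj_eq] at h2
        rcases h2 with h2 | h2
        · rcases h4 with h4 | h4 <;> omega
        · rcases h5 with h5 | h5 <;> omega
  · intro g hg
    refine span_of_orth (fun s => cb s) _ ?_ ?_ g hg
    · rintro _ ⟨ρ, rfl⟩ s
      show (wt φ (cj ρ (cb s)) : ℚ) = - (wt φ (cj ρ s) : ℚ)
      rw [← cm_conj, hwt, hwt, cb_eq]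
      have h1 := hr (cj ρ s)
      have h2 : (r (ComplexEmbedding.conjugate (cj ρ s)) : ℚ) = m - r (cj ρ s) := by
        rw [← h1]
        push_cast
        ring
      push_cast
      rw [h2]
      ring
    · intro g' hg' horth
      refine hS g' (fun x => ?_) (fun τ => ?_)
      · rw [← cb_eq]
        exact hg' x
      · rw [← horth _ ⟨τ, rfl⟩]
        refine Finset.sum_congr rfl fun x _ => ?_
        show _ = g' x * (wt φ (cj τ x) : ℚ)
        rw [hwt]
        rfl

end Pool.Agent.H9.US
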