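import Mathlib
import Pool.Agent.H52.AD.Final
import Pool.Agent.H64.CO.Defs

/-!
# Theorem U: the translates of a two-valued signature span (H9 US)
-/

open NumberField Module

namespace Pool.Agent.H9.US

open Pool.Agent.H38.CM Pool.Agent.H52.MF Pool.Agent.H52.AD Pool.Agent.H64.CO

variable {K : Type} [Field K] [NumberField K] [IsCMField K]

/-- The set of the embeddings at which the signature is `a` is a CM type. -/
theorem sig_type {m a : ℕ} (h2 : 2 * a ≠ m) {r : (K →+* ℂ) → ℕ}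
    (hr : ∀ x, r x + r (ComplexEmbedding.conjugate x) = m) (hv : ∀ x, r x = a ∨ r x + a = m) :
    IsCMType {x | r x = a} := by
  intro x
  have h := hr x
  show r (ComplexEmbedding.conjugate x) = a ↔ ¬ r x = a
  rcases hv x with h1 | h1 <;> omega

/-- An odd function orthogonal to all translates of the signature function vanishes if the CM type is not degenerate. -/
theorem spans_sig {m a : ℕ} (h2 : 2 * a ≠ m) {r : (K →+* ℂ) → ℕ}
    (hr : ∀ x, r x + r (ComplexEmbedding.conjugate x) = m) (hv : ∀ x, r x = a ∨ r x + a = m)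
    (hΦ : {x | r x = a} ∉ FailP (cjp K) (autGrp K) (fun _ => True)) :
    Spans fun x => 2 * (r x : ℤ) - m := by
  classical
  intro c hc h
  by_contra hc0
  apply hΦ
  obtain ⟨W₀, hW₀⟩ : ∃ W₀ : Submodule ℚ ((K →+* ℂ) → ℚ), ∀ f, f ∈ W₀ ↔
      (∀ x, f (ComplexEmbedding.conjugate x) = - f x) ∧ ∀ τ : ℂ ≃+* ℂ,
        ∑ x : K →+* ℂ, f x * ((2 * (r ((τ : ℂ →+* ℂ).comp x) : ℤ) - m : ℤ) : ℚ) = 0 := by
    refine ⟨{ carrier := {f | (∀ x, f (ComplexEmbedding.conjugate x) = - f x) ∧ ∀ τ : ℂ ≃+* ℂ,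
        ∑ x : K →+* ℂ, f x * ((2 * (r ((τ : ℂ →+* ℂ).comp x) : ℤ) - m : ℤ) : ℚ) = 0}
              add_mem' := ?_
              zero_mem' := ?_
              smul_mem' := ?_ }, fun f => Iff.rfl⟩
    · rintro f f' ⟨h1, h1'⟩ ⟨h3, h3'⟩
      refine ⟨fun x => ?_, fun τ => ?_⟩
      · rw [Pi.add_apply, Pi.add_apply, h1, h3]
        ring
      · simp only [Pi.add_apply, add_mul]
        rw [Finset.sum_add_distrib, h1', h3', add_zero]
    · exact ⟨fun x => by simp, fun τ => by simp⟩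
    · rintro q f ⟨h1, h1'⟩
      refine ⟨fun x => ?_, fun τ => ?_⟩
      · rw [Pi.smul_apply, Pi.smul_apply, h1]
        simp
      · simp only [Pi.smul_apply, smul_eq_mul, mul_assoc]
        rw [← Finset.mul_sum, h1', mul_zero]
  have hcW : c ∈ W₀ := (hW₀ c).2 ⟨hc, h⟩
  have h0 : W₀ ≠ ⊥ := by
    intro hb
    rw [hb, Submodule.mem_bot] at hcW
    exact hc0 hcW
  obtain ⟨W, hWle, hW⟩ := exists_minimal_stable W₀ h0 (fun f hf => ((hW₀ f).1 hf).1) (by
    intro τ f hf
    rw [hW₀] at hf ⊢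
    refine ⟨fun x => ?_, fun τ' => ?_⟩
    · show f (autPerm τ (ComplexEmbedding.conjugate x)) = - f (autPerm τ x)
      rw [autPerm_conj, hf.1]
    · have h3 := hf.2 (τ.symm.trans τ')
      rw [← Equiv.sum_comp (autPerm τ)] at h3
      rw [← h3]
      refine Finset.sum_congr rfl fun x _ => ?_
      have e : ((τ.symm.trans τ' : ℂ ≃+* ℂ) : ℂ →+* ℂ).comp (autPerm τ x) = (τ' : ℂ →+* ℂ).comp x := by
        ext z
        simp [autPerm_apply]
      rw [e]
      rfl)
  refine ⟨sig_type h2 hr hv, W, ⟨hW.1, hW.2.1, (isAutStable_iff W).1 hW.2.2.1, fun W' hle hst =>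
    hW.2.2.2 W' hle ((isAutStable_iff W').2 hst)⟩, trivial, ?_⟩
  intro f hf
  have h3 := ((hW₀ f).1 (hWle hf)).2 (RingEquiv.refl ℂ)
  have hodd := ((hW₀ f).1 (hWle hf)).1
  have e1 : ∀ x : K →+* ℂ, f x * ((2 * (r (((RingEquiv.refl ℂ : ℂ ≃+* ℂ) : ℂ →+* ℂ).comp x) : ℤ) - m : ℤ) : ℚ) =
      (2 * (a : ℚ) - m) * (2 * (if x ∈ {x | r x = a} then f x else 0) - f x) := by
    intro x
    have e2 : ((RingEquiv.refl ℂ : ℂ ≃+* ℂ) : ℂ →+* ℂ).comp x = x := by
      ext z
      simp
    rw [e2]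
    by_cases hx : r x = a
    · rw [if_pos (show x ∈ {x | r x = a} from hx), hx]
      push_cast
      ring
    · rw [if_neg (show ¬ x ∈ {x | r x = a} from hx)]
      have h4 : (r x : ℚ) = m - a := by
        rcases hv x with h5 | h5
        · exact absurd h5 hx
        · rw [← h5]
          push_cast
          ring
      push_cast
      rw [h4]
      ring
  rw [Finset.sum_congr rfl fun x _ => e1 x, ← Finset.mul_sum, Finset.sum_sub_distrib,
    ← Finset.mul_sum] at h3
  have h4 : ∑ x, f x = 0 := by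
    have h5 : ∑ x, f x = ∑ x : K →+* ℂ, f (cjp K x) := (Equiv.sum_comp (cjp K) f).symm
    have h6 : ∑ x : K →+* ℂ, f (cjp K x) = - ∑ x, f x := by
      rw [← Finset.sum_neg_distrib]
      exact Finset.sum_congr rfl fun x _ => hodd x
    linarith
  rw [h4, sub_zero] at h3
  have h7 : (2 * (a : ℚ) - m) ≠ 0 := by
    intro h8
    apply h2
    have h9 : (2 * (a : ℚ)) = m := by linarith
    exact_mod_cast h9
  rcases mul_eq_zero.1 h3 with h8 | h8
  · exact absurd h8 h7
  · have h9 : ∑ x, (if x ∈ {x | r x = a} then f x else 0) = 0 := by linarith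
    convert h9

end Pool.Agent.H9.US
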