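import Mathlib
import Pool.Agent.H9.US.Good
import Pool.Agent.H9.US.Sp
import Pool.Agent.H9.US.Count
import Pool.Agent.H9.US.AllD

/-!
# Theorem U: almost all signatures (H9 US)
-/

set_option autoImplicit false

open NumberField Module

namespace Pool.Agent.H9.US

open Pool.Agent.H38.CM Pool.Agent.H52.MF Pool.Agent.H52.AD Pool.Agent.H42.OD Pool.Agent.H9.EC

/-- The signatures of multiplicity `m` with values `c` and `m - c`. -/
def Sigs (K : Type) [Field K] [NumberField K] (m c : ℕ) : Set ((K →+* ℂ) → ℕ) :=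
  {r | (∀ x, r x = c ∨ r x = m - c) ∧ ∀ x, r x + r (ComplexEmbedding.conjugate x) = m}

variable {K : Type} [Field K] [NumberField K] [IsCMField K]

theorem good_of_not_fail {m c : ℕ} (hc : c ≤ m) (hcm : Nat.Coprime c m) (h2 : 2 * c ≠ m)
    {r : (K →+* ℂ) → ℕ} (hr : r ∈ Sigs K m c)
    (hΦ : {x | r x = c} ∉ FailP (cjp K) (autGrp K) (fun _ => True)) : Good K m r := by
  obtain ⟨hv, hr⟩ := hr
  have hm : 1 ≤ m := by
    by_contra h0
    have h3 : m = 0 := by omega
    subst h3
    have h4 : c = 0 := by omega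
    subst h4
    exact h2 rfl
  have hv' : ∀ x, r x = c ∨ r x + c = m := fun x => by
    rcases hv x with h | h
    · exact Or.inl h
    · right
      omega
  have hS := spans_sig h2 hr hv' hΦ
  have hcop : ∀ x, Nat.Coprime (r x) m := by
    intro x
    rcases hv x with h | h
    · rw [h]
      exact hcm
    · rw [h]
      exact (Nat.coprime_self_sub_left hc).2 hcm
  refine good_of hm hr (fun x => ⟨RingEquiv.refl ℂ, ?_⟩) ?_ hS
  · exact hcop _
  · by_cases h1 : m = 1
    · exact Or.inl h1
    · right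
      have hc0 : c ≠ 0 := by
        intro h0
        rw [h0, Nat.coprime_zero_left] at hcm
        exact h1 hcm
      have hc1 : c ≠ m := by
        intro h0
        rw [h0, Nat.coprime_self] at hcm
        exact h1 hcm
      refine Pool.Agent.H64.CO.unl_of_spans m r hr (fun x => ?_) hS
      unfold Pool.Agent.H64.CO.Indef
      rcases hv x with h | h <;> omega

/-- the signature with value `c` on `Φ` -/
noncomputable def sigOf (m c : ℕ) (Φ : Set (K →+* ℂ)) : (K →+* ℂ) → ℕ := by
  classical
  exact fun x => if x ∈ Φ then c else m - c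

theorem sigOf_mem {m c : ℕ} (hc : c ≤ m) {Φ : Set (K →+* ℂ)} (hΦ : IsCMType Φ) : sigOf m c Φ ∈ Sigs K m c := by
  classical
  constructor
  · intro x
    unfold sigOf
    split_ifs
    · exact Or.inl rfl
    · exact Or.inr rfl
  · intro x
    have h := hΦ x
    unfold sigOf
    by_cases hx : x ∈ Φ
    · rw [if_pos hx, if_neg (fun h1 => (h.1 h1) hx)]
      omega
    · rw [if_neg hx, if_pos (h.2 hx)]
      omega

theorem sig_inj {m c : ℕ} (h2 : 2 * c ≠ m) {r r' : (K →+* ℂ) → ℕ} (hr : r ∈ Sigs K m c)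
    (hr' : r' ∈ Sigs K m c) (h : {x | r x = c} = {x | r' x = c}) : r = r' := by
  funext x
  have h1 : r x = c ↔ r' x = c := by
    have := congrArg (fun s : Set (K →+* ℂ) => x ∈ s) h
    exact this.to_iff
  rcases hr.1 x with h3 | h3
  · rw [h3, h1.1 h3]
  · rcases hr'.1 x with h4 | h4
    · rw [h4, h1.2 h4]
    · rw [h3, h4]

theorem card_sigs {m c g : ℕ} (hK : finrank ℚ K = 2 * g) (hc : c ≤ m) (h2 : 2 * c ≠ m) :
    Nat.card (Sigs K m c) = 2 ^ g := by
  classical
  rw [← card_cmTypes g hK]
  refine Nat.card_congr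
    { toFun := fun r => ⟨{x | r.1 x = c}, sig_type h2 r.2.2 (fun x => by
        rcases r.2.1 x with h | h
        · exact Or.inl h
        · right
          omega)⟩
      invFun := fun Φ => ⟨sigOf m c Φ.1, sigOf_mem hc Φ.2⟩
      left_inv := fun r => ?_
      right_inv := fun Φ => ?_ }
  · apply Subtype.ext
    refine sig_inj h2 (sigOf_mem hc ?_) r.2 ?_
    · exact sig_type h2 r.2.2 (fun x => by
        rcases r.2.1 x with h | h
        · exact Or.inl h
        · right
          omega)
    · ext x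
      show sigOf m c {x | r.1 x = c} x = c ↔ r.1 x = c
      unfold sigOf
      by_cases hx : r.1 x = c
      · rw [if_pos (show x ∈ {x | r.1 x = c} from hx)]
        exact ⟨fun _ => hx, fun _ => rfl⟩
      · rw [if_neg (show ¬ x ∈ {x | r.1 x = c} from hx)]
        exact ⟨fun h => by omega, fun h => absurd h hx⟩
  · apply Subtype.ext
    ext x
    show sigOf m c Φ.1 x = c ↔ x ∈ Φ.1
    unfold sigOf
    by_cases hx : x ∈ Φ.1
    · rw [if_pos hx]
      exact ⟨fun _ => hx, fun _ => rfl⟩
    · rw [if_neg hx]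
      exact ⟨fun h => by omega, fun h => absurd h hx⟩

theorem card_bad {m c : ℕ} (hc : c ≤ m) (hcm : Nat.Coprime c m) (h2 : 2 * c ≠ m) :
    Nat.card {r // r ∈ Sigs K m c ∧ ¬ Good K m r} ≤ NumDeg K := by
  classical
  unfold NumDeg
  refine Nat.card_le_card_of_injective (fun r => ⟨{x | r.1 x = c}, ?_⟩) ?_
  · by_contra hcon
    exact r.2.2 (good_of_not_fail hc hcm h2 r.2.1 hcon)
  · intro r r' h
    have h' := congrArg Subtype.val h
    exact Subtype.ext (sig_inj h2 r.2.1 r'.2.1 h')

end Pool.Agent.H9.US
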