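import Mathlib
import Pool.Agent.H9.US.Main

/-!
# Theorem U: final statements (H9 US)
-/

set_option autoImplicit false

open NumberField Module

namespace Pool.Agent.H9.US

open Pool.Agent.H38.CM Pool.Agent.H52.MF Pool.Agent.H52.AD Pool.Agent.H42.OD Pool.Agent.H9.EC

/-- The number of the signatures of multiplicity `m` with values `c` and `m - c`. -/
noncomputable def NumSig (K : Type) [Field K] [NumberField K] (m c : ℕ) : ℕ := Nat.card (Sigs K m c)

/-- The number of those which are not good. -/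
noncomputable def NumBadSig (K : Type) [Field K] [NumberField K] (m c : ℕ) : ℕ :=
  Nat.card {r // r ∈ Sigs K m c ∧ ¬ Good K m r}

theorem us_final : ∃ C : ℝ, ∀ ε : ℝ, 0 < ε → ∃ D : ℕ,
    ∀ (K : Type) [Field K] [NumberField K] [IsCMField K] (m c g N a b k : ℕ),
      c ≤ m → Nat.Coprime c m → 2 * c ≠ m →
      finrank ℚ K = 2 * g → D ≤ g → N = ClosDeg K → a = NumCM K {2} → b = NumCM K {4, 6} →
      k = NumNonab K →
      NumSig K m c = 2 ^ g ∧
      ((NumBadSig K m c : ℝ) ≤ 2 ^ g * ((if 4 ≤ N then (g : ℝ) ^ (-(1 / 50) : ℝ) else ε) +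
        (if 8 ≤ N then 0 else C * (a / Real.sqrt g + b / g + (min b k : ℕ) * Real.log g / g)))) ∧
      (Odd g → (NumBadSig K m c : ℝ) ≤ 2 ^ g * (ε + C * b / g)) ∧
      (Odd g → ¬ 3 ∣ g → (NumBadSig K m c : ℝ) ≤ 2 ^ g * ε) := by
  obtain ⟨C, hC⟩ := us_count
  refine ⟨C, fun ε hε => ?_⟩
  obtain ⟨D, hD⟩ := hC ε hε
  refine ⟨D, ?_⟩
  intro K _ _ _ m c g N a b k hc hcm h2 hK hg hN ha hb hk
  obtain ⟨-, h3, h4, h5⟩ := hD K g N a b k hK hg hN ha hb hk
  have h6 : (NumBadSig K m c : ℝ) ≤ NumDeg K := by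
    exact_mod_cast card_bad hc hcm h2
  exact ⟨card_sigs hK hc h2, h6.trans h3, fun ho => h6.trans (h4 ho), fun ho h3' => h6.trans (h5 ho h3')⟩

open Classical in
theorem us_dim (θ : ℝ) (h0 : 0 < θ) (h1 : θ < 1) :
    Filter.Tendsto (fun x : ℕ => (((Finset.Icc 1 x).filter (fun g : ℕ =>
      ∀ (K : Type) [Field K] [NumberField K] [IsCMField K], finrank ℚ K = 2 * g →
        ∀ m c : ℕ, c ≤ m → Nat.Coprime c m → 2 * c ≠ m →
        NumSig K m c = 2 ^ g ∧
        (NumBadSig K m c : ℝ) * Real.exp (Real.log g ^ θ) ≤ 2 ^ g)).card : ℝ) / x)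
      Filter.atTop (nhds 1) := by
  refine dens_mono (fun _ g => ∀ (K : Type) [Field K] [NumberField K] [IsCMField K],
    finrank ℚ K = 2 * g → (NumDeg K : ℝ) * Real.exp (Real.log g ^ θ) ≤ 2 ^ g) _ 0 ?_
    (by convert almost_all_deg θ h0 h1)
  intro x _ g _ _ h K _ _ _ hK m c hc hcm h2
  refine ⟨card_sigs hK hc h2, le_trans ?_ (h K hK)⟩
  refine mul_le_mul_of_nonneg_right ?_ (Real.exp_pos _).le
  exact_mod_cast card_bad hc hcm h2

end Pool.Agent.H9.US
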