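import Pool.Agent.H9.US.Stmt
import Pool.Agent.H9.US.Final
import Pool.Agent.H64.ST.Bridge

/-!
# The statements of Theorem U in terms of the definitions for the statements
-/

set_option autoImplicit false

open NumberField Module

namespace Pool.Agent.H9.US

open Pool.Agent.H38.CM Pool.Agent.H52.MF Pool.Agent.H52.AD Pool.Agent.H42.OD Pool.Agent.H9.EC

theorem isGood_of_good {K : Type} [Field K] [NumberField K] {m : ℕ} {r : (K →+* ℂ) → ℕ} (h : Good K m r) :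
    IsGood K m r := by
  intro V _ _ _ F φ hF hφ hm hr
  rw [Pool.Agent.H64.ST.divGen_iff]
  refine h V (Pool.Agent.H64.ST.toH F) ((Pool.Agent.H64.ST.isAbelian_iff F).1 hF)
    (Pool.Agent.H64.ST.act F φ hφ.mem) (fun s => ?_) (fun s => ?_) (fun f hf hc => ?_)
  · rw [← Pool.Agent.H64.ST.mult_eq F φ hφ.mem, hm]
  · rw [← Pool.Agent.H64.ST.hol_eq' F φ hφ.mem, hr]
  · obtain ⟨a, ha⟩ := hφ.com f hf hc
    exact ⟨a, ha⟩

theorem numSignatures_eq (K : Type) [Field K] [NumberField K] (m c : ℕ) : NumSignatures K m c = NumSig K m c := rfl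

theorem numBad_le {K : Type} [Field K] [NumberField K] [IsCMField K] {m c g : ℕ} (hg : finrank ℚ K = 2 * g)
    (hc : c ≤ m) (h2 : 2 * c ≠ m) : NumBadSignatures K m c ≤ NumBadSig K m c := by
  unfold NumBadSignatures NumBadSig
  have hfin : Finite (Sigs K m c) := by
    have h1 : Nat.card (Sigs K m c) ≠ 0 := by
      rw [card_sigs (K := K) hg hc h2]
      positivity
    exact Nat.finite_of_card_ne_zero h1
  have hfin2 : Finite {r // r ∈ Sigs K m c ∧ ¬ Good K m r} :=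
    Finite.of_injective (fun r : {r // r ∈ Sigs K m c ∧ ¬ Good K m r} => (⟨r.1, r.2.1⟩ : Sigs K m c))
      fun a b h => Subtype.ext (congrArg (fun x : Sigs K m c => (x : (K →+* ℂ) → ℕ)) h)
  refine Nat.card_le_card_of_injective
    (fun r : {r // r ∈ Signatures K m c ∧ ¬ IsGood K m r} =>
      (⟨r.1, r.2.1, fun h => r.2.2 (isGood_of_good h)⟩ : {r // r ∈ Sigs K m c ∧ ¬ Good K m r}))
    fun a b h => Subtype.ext ?_
  exact congrArg (fun x : {r // r ∈ Sigs K m c ∧ ¬ Good K m r} => (x : (K →+* ℂ) → ℕ)) h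

theorem u_final : ∃ C : ℝ, ∀ ε : ℝ, 0 < ε → ∃ D : ℕ,
    ∀ (K : Type) [Field K] [NumberField K] [IsCMField K] (m c g N a b k : ℕ),
      c ≤ m → Nat.Coprime c m → 2 * c ≠ m →
      finrank ℚ K = 2 * g → D ≤ g → N = ClosDeg K → a = NumCM K {2} → b = NumCM K {4, 6} →
      k = NumNonab K →
      NumSignatures K m c = 2 ^ g ∧
      ((NumBadSignatures K m c : ℝ) ≤ 2 ^ g * ((if 4 ≤ N then (g : ℝ) ^ (-(1 / 50) : ℝ) else ε) +
        (if 8 ≤ N then 0 else C * (a / Real.sqrt g + b / g + (min b k : ℕ) * Real.log g / g)))) ∧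
      (Odd g → (NumBadSignatures K m c : ℝ) ≤ 2 ^ g * (ε + C * b / g)) ∧
      (Odd g → ¬ 3 ∣ g → (NumBadSignatures K m c : ℝ) ≤ 2 ^ g * ε) := by
  obtain ⟨C, hC⟩ := us_final
  refine ⟨C, fun ε hε => ?_⟩
  obtain ⟨D, hD⟩ := hC ε hε
  refine ⟨D, ?_⟩
  intro K _ _ _ m c g N a b k hc hcm h2 hK hg hN ha hb hk
  obtain ⟨h1, h3, h4, h5⟩ := hD K m c g N a b k hc hcm h2 hK hg hN ha hb hk
  have h6 : (NumBadSignatures K m c : ℝ) ≤ NumBadSig K m c := by
    exact_mod_cast numBad_le hK hc h2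
  exact ⟨h1, h6.trans h3, fun ho => h6.trans (h4 ho), fun ho h3' => h6.trans (h5 ho h3')⟩

open Classical in
theorem u_dim (θ : ℝ) (h0 : 0 < θ) (h1 : θ < 1) :
    Filter.Tendsto (fun x : ℕ => (((Finset.Icc 1 x).filter (fun g : ℕ =>
      ∀ (K : Type) [Field K] [NumberField K] [IsCMField K], finrank ℚ K = 2 * g →
        ∀ m c : ℕ, c ≤ m → Nat.Coprime c m → 2 * c ≠ m →
        NumSignatures K m c = 2 ^ g ∧
        (NumBadSignatures K m c : ℝ) * Real.exp (Real.log g ^ θ) ≤ 2 ^ g)).card : ℝ) / x)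
      Filter.atTop (nhds 1) := by
  refine dens_mono (fun _ g => ∀ (K : Type) [Field K] [NumberField K] [IsCMField K], finrank ℚ K = 2 * g →
        ∀ m c : ℕ, c ≤ m → Nat.Coprime c m → 2 * c ≠ m →
        NumSig K m c = 2 ^ g ∧
        (NumBadSig K m c : ℝ) * Real.exp (Real.log g ^ θ) ≤ 2 ^ g) _ 0 ?_ (us_dim θ h0 h1)
  intro x _ g _ _ h K _ _ _ hK m c hc hcm h2
  obtain ⟨h3, h4⟩ := h K hK m c hc hcm h2
  refine ⟨h3, le_trans ?_ h4⟩
  refine mul_le_mul_of_nonneg_right ?_ (Real.exp_pos _).le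
  exact_mod_cast numBad_le hK hc h2

end Pool.Agent.H9.US
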