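import Pool.Agent.H64.ST.SDefs

/-!
# Signatures (definitions for the statements)
-/

set_option autoImplicit false

open NumberField

namespace Pool.Agent.H9.US

open Pool.Agent.H64.ST

/-- The signatures of the CM field `K` with values `c` and `m - c`: the maps `r` from the embeddings `s : K → ℂ` to
`{c, m - c}` with `r_s + r_s̄ = m`. -/
def Signatures (K : Type) [Field K] (m c : ℕ) : Set ((K →+* ℂ) → ℕ) :=
  {r | (∀ s, r s = c ∨ r s = m - c) ∧ ∀ s, r s + r (ComplexEmbedding.conjugate s) = m}

/-- For every abelian variety `A` (`V = H₁(A, ℚ)`, `F = H^{1,0}(A)`) with an action `φ` of `K` such that `K` is its own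
commutant in `End⁰(A)` and for every embedding `s` of `K` the eigenspaces of `s` in `H¹(A, ℂ)` and in `H^{1,0}(A)` have
the dimensions `m` and `r_s`, all Hodge classes on all powers of `A` are generated by divisor classes. -/
def IsGood (K : Type) [Field K] (m : ℕ) (r : (K →+* ℂ) → ℕ) : Prop :=
  ∀ (V : Type) [AddCommGroup V] [Module ℚ V] [FiniteDimensional ℚ V] (F : Submodule ℂ (HOne V))
    (φ : K →+* (V →ₗ[ℚ] V)), IsAbelian F → SelfCommuting F φ → (∀ s, mult φ s = m) → (∀ s, hol F φ s = r s) →
    DivGen F

/-- The number of the signatures with values `c` and `m - c`. -/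
noncomputable def NumSignatures (K : Type) [Field K] (m c : ℕ) : ℕ := Nat.card (Signatures K m c)

/-- The number of those which are not good. -/
noncomputable def NumBadSignatures (K : Type) [Field K] (m c : ℕ) : ℕ :=
  Nat.card {r // r ∈ Signatures K m c ∧ ¬ IsGood K m r}

end Pool.Agent.H9.US
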