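import Pool.Agent.H9.US.StmtB
import Pool.Agent.H68.U2.Main

/-!
# Theorem U2 (helper68) in terms of the definitions for the statements
-/

set_option autoImplicit false

open NumberField Module

namespace Pool.Agent.H9.US

/-- All signatures of multiplicity `m` of the CM field `K`: the maps `r` from the embeddings `s : K → ℂ` to `{0, .., m}`
with `r_s + r_s̄ = m`. -/
def AllSignatures (K : Type) [Field K] (m : ℕ) : Set ((K →+* ℂ) → ℕ) :=
  {r | ∀ s, r s + r (ComplexEmbedding.conjugate s) = m}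

private theorem fin_of (K : Type) [Field K] [NumberField K] [IsCMField K] {g m : ℕ} (hK : finrank ℚ K = 2 * g) :
    Finite (Pool.Agent.H68.U2.Sig K m) := by
  refine Nat.finite_of_card_ne_zero ?_
  rw [Pool.Agent.H68.U2.card_sig hK m]
  positivity

theorem u2_final (K : Type) [Field K] [NumberField K] [IsCMField K] (g m : ℕ) (hK : finrank ℚ K = 2 * g)
    (hm : 1 ≤ m) :
    Nat.card (AllSignatures K m) = (m + 1) ^ g ∧
    Nat.card {r // r ∈ AllSignatures K m ∧ (∃ s, Nat.Coprime (r s) m) ∧ ¬ IsGood K m r} * (m + 1) ≤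
      3 * g * (m + 1) ^ g ∧
    (m.Prime → Nat.card {r // r ∈ AllSignatures K m ∧ ¬ IsGood K m r} * (m + 1) ≤ 3 * g * (m + 1) ^ g) := by
  obtain ⟨h1, h2, h3⟩ := Pool.Agent.H68.U2.u2 K g m hK hm
  have hfin : Finite (Pool.Agent.H68.U2.Sig K m) := fin_of K hK
  refine ⟨h1, le_trans ?_ h2, fun hp => le_trans ?_ (h3 hp)⟩
  · refine Nat.mul_le_mul_right _ ?_
    have hf : Finite {r : (K →+* ℂ) → ℕ | r ∈ Pool.Agent.H68.U2.Sig K m ∧ (∃ s, Nat.Coprime (r s) m) ∧
        ¬ Good K m r} :=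
      (Set.Finite.subset (Set.toFinite (Pool.Agent.H68.U2.Sig K m)) fun r hr => hr.1).to_subtype
    refine Nat.card_le_card_of_injective
      (fun r : {r // r ∈ AllSignatures K m ∧ (∃ s, Nat.Coprime (r s) m) ∧ ¬ IsGood K m r} =>
        (⟨r.1, r.2.1, r.2.2.1, fun h => r.2.2.2 (isGood_of_good h)⟩ :
          {r : (K →+* ℂ) → ℕ | r ∈ Pool.Agent.H68.U2.Sig K m ∧ (∃ s, Nat.Coprime (r s) m) ∧ ¬ Good K m r}))
      fun a b h => Subtype.ext ?_
    exact congrArg (fun x : {r : (K →+* ℂ) → ℕ | r ∈ Pool.Agent.H68.U2.Sig K m ∧ (∃ s, Nat.Coprime (r s) m) ∧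
      ¬ Good K m r} => x.1) h
  · refine Nat.mul_le_mul_right _ ?_
    have hf : Finite {r : (K →+* ℂ) → ℕ | r ∈ Pool.Agent.H68.U2.Sig K m ∧ ¬ Good K m r} :=
      (Set.Finite.subset (Set.toFinite (Pool.Agent.H68.U2.Sig K m)) fun r hr => hr.1).to_subtype
    refine Nat.card_le_card_of_injective
      (fun r : {r // r ∈ AllSignatures K m ∧ ¬ IsGood K m r} =>
        (⟨r.1, r.2.1, fun h => r.2.2 (isGood_of_good h)⟩ :
          {r : (K →+* ℂ) → ℕ | r ∈ Pool.Agent.H68.U2.Sig K m ∧ ¬ Good K m r}))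
      fun a b h => Subtype.ext ?_
    exact congrArg (fun x : {r : (K →+* ℂ) → ℕ | r ∈ Pool.Agent.H68.U2.Sig K m ∧ ¬ Good K m r} => x.1) h

end Pool.Agent.H9.US
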